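import Pool.Agent.Helper98_SIQ.Com
import Pool.Agent.Helper15_SIU.Stmts

/-!
# SIQ, module SYM: the average is symmetric, averages commute
-/

set_option autoImplicit false

open MeasureTheory Filter Topology

namespace Pool.Agent.SIQ.H98

open Pool.Agent.SIU Pool.Agent.SIQ

theorem cont_qm : Continuous (fun p : E6 × E6 => qm p.1 p.2) := by
  refine continuous_pi fun m => ?_
  obtain ⟨i, rfl | rfl⟩ := blocks m
  · simp only [qm_lo]
    fun_prop
  · simp only [qm_hi]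
    fun_prop

theorem ae_U (h0 : volume (X1.Uᶜ) = 0) : ∀ᵐ z : E6, z ∈ X1.U := by
  rw [ae_iff]
  exact h0

theorem ae_UU (h0 : volume (X1.Uᶜ) = 0) :
    ∀ᵐ p : E6 × E6 ∂(volume.prod volume), p ∈ X1.U ×ˢ X1.U := by
  filter_upwards [Measure.quasiMeasurePreserving_fst.ae (ae_U h0),
    Measure.quasiMeasurePreserving_snd.ae (ae_U h0)] with p hp hq
  exact ⟨hp, hq⟩

theorem int2 {F : Type} [NormedAddCommGroup F] [NormedSpace ℝ F] (h0 : volume (X1.Uᶜ) = 0)
    {r s : E6 → ℝ} (hr : ContinuousOn r X1.U) (hs : ContinuousOn s X1.U) (hri : Integrable r)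
    (hsi : Integrable s) {ψ : E6 × E6 → F} (hψ : ContinuousOn ψ (X1.U ×ˢ X1.U)) {C : ℝ}
    (hC : ∀ p ∈ X1.U ×ˢ X1.U, ‖ψ p‖ ≤ C) :
    Integrable (fun p : E6 × E6 => (r p.1 * s p.2) • ψ p) (volume.prod volume) := by
  have hae := ae_UU h0
  have hmeas : AEStronglyMeasurable (fun p : E6 × E6 => (r p.1 * s p.2) • ψ p)
      (volume.prod volume) := by
    have h1 : ContinuousOn (fun p : E6 × E6 => (r p.1 * s p.2) • ψ p) (X1.U ×ˢ X1.U) := by
      refine ContinuousOn.smul (ContinuousOn.mul ?_ ?_) hψ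
      · exact hr.comp continuousOn_fst fun p hp => hp.1
      · exact hs.comp continuousOn_snd fun p hp => hp.2
    have h2 := h1.aestronglyMeasurable (μ := volume.prod volume)
      ((isOpen_U1.prod isOpen_U1).measurableSet)
    rwa [Measure.restrict_eq_self_of_ae_mem hae] at h2
  have hb : Integrable (fun p : E6 × E6 => (|r p.1| * |s p.2|) * C) (volume.prod volume) :=
    (hri.abs.mul_prod hsi.abs).mul_const C
  refine hb.mono' hmeas ?_
  filter_upwards [hae] with p hp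
  rw [norm_smul, Real.norm_eq_abs, abs_mul]
  exact mul_le_mul_of_nonneg_left (hC p hp) (by positivity)

/-! ### averages commute -/

theorem swap_pt (hQ : QuaStmt) {h g z : E6} (hh : h ∈ X1.U) :
    qm (qm (nz h) (qm g (cq (nz h)))) (qm h z) = qm h (qm g z) := by
  obtain ⟨-, -, q3, q4, q5, q6, -, -, -, q10, -⟩ := hQ
  set s : Fin 3 → ℝ := fun i => √(nn h i) with hs
  have hpos : ∀ i, 0 < s i := fun i => Real.sqrt_pos.mpr ((mem_U1' h).mp hh i)
  have h1 : h = X1.act (fun i => (s i : ℂ)) (nz h) := by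
    unfold nz
    rw [act1_act]
    have : (fun i => (s i : ℂ) * (((√(nn h i))⁻¹ : ℝ) : ℂ)) = fun _ => (1 : ℂ) := by
      funext i
      rw [← Complex.ofReal_mul, mul_inv_cancel₀ (hpos i).ne', Complex.ofReal_one]
    rw [this, act1_one]
  have hn : (fun i => ((nn (nz h) i : ℝ) : ℂ)) = fun _ => (1 : ℂ) := by
    funext i
    rw [nz_mem hh i, Complex.ofReal_one]
  have h2 : ∀ y, qm h y = X1.act (fun i => (s i : ℂ)) (qm (nz h) y) := by
    intro y
    conv_lhs => rw [h1]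
    exact q10 s (nz h) y
  rw [← q3, ← q3, h2 z, ← q4, q6, hn, act1_one, h2, ← q4, ← q4]

theorem av_comm (hC : CptStmt) (hQ : QuaStmt) (hM : QumStmt) (hR : RhoStmt) (hA : AvfStmt)
    {δ ε : Fin 3 → ℝ} (hδ : Ad δ) (hε : Ad ε) (k : ℕ) (a : X1.Form k) {z : E6}
    (hz : z ∈ X1.U) : cmp (Av δ (Av ε a.1)) z = cmp (Av ε (Av δ a.1)) z := by
  obtain ⟨hrc, hr0, hri, hZ, hrq, hrh, hrs, -⟩ := hR δ hδ
  obtain ⟨hsc, hs0, hsi, hZs, hsq, hsh, hss, -⟩ := hR ε hε
  obtain ⟨-, hAc, hAb, hint, -⟩ := hA δ hδ k a.1 a.2.1 a.2.2.1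
  obtain ⟨-, hBc, hBb, hjnt, -⟩ := hA ε hε k a.1 a.2.1 a.2.2.1
  have hA2 := (hA δ hδ k (Av ε a.1) hBc hBb).2.2.2.1 z hz
  have hB2 := (hA ε hε k (Av δ a.1) hAc hAb).2.2.2.1 z hz
  have hU : ∀ {g w : E6}, g ∈ X1.U → w ∈ X1.U → qm g w ∈ X1.U := fun hg hw =>
    (hQ.2.1 _ _).mpr ⟨hg, hw⟩
  obtain ⟨Cb, hCb0, hCb⟩ := cmp_bdd hC a.2.1 a.2.2.1
  have h0 := hM.2.2.2.2.2.1
  -- the function of two variables
  have hψ : ContinuousOn (fun p : E6 × E6 => cmp a.1 (qm p.2 (qm p.1 z))) (X1.U ×ˢ X1.U) := by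
    refine (cmp_cont hC a.2.1).comp (Continuous.continuousOn ?_) fun p hp => hU hp.2 (hU hp.1 hz)
    have c1 : Continuous fun p : E6 × E6 => (p.2, qm p.1 z) :=
      continuous_snd.prodMk (cont_qm.comp (continuous_fst.prodMk continuous_const))
    exact cont_qm.comp c1
  have hI := int2 h0 hrc hsc hri hsi hψ (C := Cb) fun p hp => hCb _ (hU hp.2 (hU hp.1 hz))
  -- left side
  have hL : cmp (Av δ (Av ε a.1)) z = ((Zc δ)⁻¹ * (Zc ε)⁻¹) •
      ∫ g, ∫ h, (rho δ g * rho ε h) • cmp a.1 (qm h (qm g z)) := by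
    rw [hA2.2, mul_smul]
    congr 1
    rw [← integral_smul]
    apply integral_congr_ae
    refine ae_of_all _ fun g => ?_
    show rho δ g • cmp (Av ε a.1) (qm g z) =
      (Zc ε)⁻¹ • ∫ h, (rho δ g * rho ε h) • cmp a.1 (qm h (qm g z))
    by_cases hg : rho δ g = 0
    · rw [hg, zero_smul]
      simp
    · rw [(hjnt _ (hU (hrs g hg).1 hz)).2, smul_comm]
      congr 1
      rw [← integral_smul]
      apply integral_congr_ae
      refine ae_of_all _ fun h => ?_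
      show rho δ g • rho ε h • _ = _
      rw [smul_smul]
  have hRt : cmp (Av ε (Av δ a.1)) z = ((Zc δ)⁻¹ * (Zc ε)⁻¹) •
      ∫ h, ∫ g, (rho δ g * rho ε h) • cmp a.1 (qm g (qm h z)) := by
    rw [hB2.2, mul_comm (Zc δ)⁻¹, mul_smul]
    congr 1
    rw [← integral_smul]
    apply integral_congr_ae
    refine ae_of_all _ fun h => ?_
    show rho ε h • cmp (Av δ a.1) (qm h z) =
      (Zc δ)⁻¹ • ∫ g, (rho δ g * rho ε h) • cmp a.1 (qm g (qm h z))
    by_cases hg : rho ε h = 0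
    · rw [hg, zero_smul]
      simp
    · rw [(hint _ (hU (hss h hg).1 hz)).2, smul_comm]
      congr 1
      rw [← integral_smul]
      apply integral_congr_ae
      refine ae_of_all _ fun g => ?_
      show rho ε h • rho δ g • _ = _
      rw [smul_smul, mul_comm]
  rw [hL, hRt]
  congr 1
  rw [integral_integral_swap hI]
  apply integral_congr_ae
  refine ae_of_all _ fun h => ?_
  show ∫ g, (rho δ g * rho ε h) • cmp a.1 (qm h (qm g z)) =
    ∫ g, (rho δ g * rho ε h) • cmp a.1 (qm g (qm h z))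
  by_cases hh : rho ε h = 0
  · simp [hh]
  have hhU := (hss h hh).1
  have hmp := hM.2.2.2.1 (nz h) (nz_mem hhU)
  have hmeas : AEStronglyMeasurable (fun g => (rho δ g * rho ε h) • cmp a.1 (qm g (qm h z))) := by
    have h1 := (hint (qm h z) (hU hhU hz)).1.smul (rho ε h)
    refine h1.aestronglyMeasurable.congr (ae_of_all _ fun g => ?_)
    show rho ε h • rho δ g • cmp a.1 (qm g (qm h z)) = _
    rw [smul_smul, mul_comm]
  have h2 := integral_map hmp.aemeasurable (f := fun g =>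
    (rho δ g * rho ε h) • cmp a.1 (qm g (qm h z))) (by rw [hmp.map_eq]; exact hmeas)
  rw [hmp.map_eq] at h2
  rw [h2]
  apply integral_congr_ae
  refine ae_of_all _ fun g => ?_
  show (rho δ g * rho ε h) • cmp a.1 (qm h (qm g z)) =
    (rho δ (qm (nz h) (qm g (cq (nz h)))) * rho ε h) •
      cmp a.1 (qm (qm (nz h) (qm g (cq (nz h)))) (qm h z))
  rw [hrh (nz h) (nz_mem hhU) g, swap_pt hQ hhU]

/-! ### symmetry -/

/-- the pairing of constant forms -/
noncomputable def WW {k l : ℕ} (a : Alt 3 k) (b : Alt 3 l) : ℝ := wedge a b (stdb 3 (k + l))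

theorem WW_cont (hW : WdgStmt) (k l : ℕ) :
    Continuous fun p : Alt 3 k × Alt 3 l => WW p.1 p.2 := by
  have h1 : Continuous fun p : Alt 3 k × Alt 3 l => wedge p.1 p.2 :=
    ((hW 3 k l).2.2.2.2.1 0).continuous
  exact (ContinuousAlternatingMap.apply ℝ (Fin 3 → ℂ) ℝ (stdb 3 (k + l))).continuous.comp h1

theorem WW_bound (hW : WdgStmt) (k l : ℕ) :
    ∃ C : ℝ, 0 ≤ C ∧ ∀ (a : Alt 3 k) (b : Alt 3 l), |WW a b| ≤ C * ‖a‖ * ‖b‖ := by
  obtain ⟨C, hC⟩ := (hW 3 k l).2.2.2.2.2.1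
  refine ⟨(|C|) * ∏ i, ‖stdb 3 (k + l) i‖, by positivity, fun a b => ?_⟩
  have h1 := (wedge a b).le_opNorm (stdb 3 (k + l))
  rw [Real.norm_eq_abs] at h1
  calc |WW a b| ≤ ‖wedge a b‖ * ∏ i, ‖stdb 3 (k + l) i‖ := h1
    _ ≤ (|C| * ‖a‖ * ‖b‖) * ∏ i, ‖stdb 3 (k + l) i‖ := by
      apply mul_le_mul_of_nonneg_right _ (by positivity)
      refine (hC a b).trans ?_
      have := le_abs_self C
      gcongr
    _ = _ := by ring

theorem WW_def {k l : ℕ} (a : Alt 3 k) (b : Alt 3 l) :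
    WW a b = wedge a b (stdb 3 (k + l)) := rfl

theorem WW_add_left (hW : WdgStmt) {k l : ℕ} (x y : Alt 3 k) (b : Alt 3 l) :
    WW (x + y) b = WW x b + WW y b := by
  rw [WW_def, WW_def, WW_def, (hW 3 k l).1, ContinuousAlternatingMap.add_apply]

theorem WW_smul_left (hW : WdgStmt) {k l : ℕ} (t : ℝ) (x : Alt 3 k) (b : Alt 3 l) :
    WW (t • x) b = t * WW x b := by
  rw [WW_def, WW_def, ((hW 3 k l).2.2.1 t x b).1, ContinuousAlternatingMap.smul_apply,
    smul_eq_mul]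

theorem WW_add_right (hW : WdgStmt) {k l : ℕ} (a : Alt 3 k) (x y : Alt 3 l) :
    WW a (x + y) = WW a x + WW a y := by
  rw [WW_def, WW_def, WW_def, (hW 3 k l).2.1, ContinuousAlternatingMap.add_apply]

theorem WW_smul_right (hW : WdgStmt) {k l : ℕ} (t : ℝ) (a : Alt 3 k) (x : Alt 3 l) :
    WW a (t • x) = t * WW a x := by
  rw [WW_def, WW_def, ((hW 3 k l).2.2.1 t a x).2, ContinuousAlternatingMap.smul_apply,
    smul_eq_mul]

theorem prw_eq {k l : ℕ} (a : E6 → Alt 6 k) (b : E6 → Alt 6 l) (z : E6) :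
    prw a b z = WW (cmp a z) (cmp b z) := rfl

attribute [irreducible] WW

theorem WW_cont_left (hW : WdgStmt) {k l : ℕ} (b : Alt 3 l) :
    Continuous fun x : Alt 3 k => WW x b := by
  have h1 := WW_cont hW k l
  have h2 : Continuous fun x : Alt 3 k => ((x, b) : Alt 3 k × Alt 3 l) :=
    continuous_id.prodMk continuous_const
  have h3 := Continuous.comp h1 h2
  exact h3

theorem WW_cont_right (hW : WdgStmt) {k l : ℕ} (a : Alt 3 k) :
    Continuous fun x : Alt 3 l => WW a x := by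
  have h1 := WW_cont hW k l
  have h2 : Continuous fun x : Alt 3 l => ((a, x) : Alt 3 k × Alt 3 l) :=
    continuous_const.prodMk continuous_id
  have h3 := Continuous.comp h1 h2
  exact h3

theorem WW_contOn (hW : WdgStmt) {k l : ℕ} {f : E6 × E6 → Alt 3 k} {g : E6 × E6 → Alt 3 l}
    {s : Set (E6 × E6)} (hf : ContinuousOn f s) (hg : ContinuousOn g s) :
    ContinuousOn (fun p => WW (f p) (g p)) s := by
  have h1 := WW_cont hW k l
  have h3 := h1.comp_continuousOn (hf.prodMk hg)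
  exact h3

/-- `WW · b` as a continuous linear map -/
noncomputable def WL (hW : WdgStmt) {k l : ℕ} (b : Alt 3 l) : Alt 3 k →L[ℝ] ℝ where
  toFun := fun a => WW a b
  map_add' := fun x y => WW_add_left hW x y b
  map_smul' := fun t x => WW_smul_left hW t x b
  cont := WW_cont_left hW b

/-- `WW a ·` as a continuous linear map -/
noncomputable def WR (hW : WdgStmt) {k l : ℕ} (a : Alt 3 k) : Alt 3 l →L[ℝ] ℝ where
  toFun := fun b => WW a b
  map_add' := fun x y => WW_add_right hW a x y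
  map_smul' := fun t x => WW_smul_right hW t a x
  cont := WW_cont_right hW a

theorem WL_apply (hW : WdgStmt) {k l : ℕ} (a : Alt 3 k) (b : Alt 3 l) : WL hW b a = WW a b := rfl
theorem WR_apply (hW : WdgStmt) {k l : ℕ} (a : Alt 3 k) (b : Alt 3 l) : WR hW a b = WW a b := rfl

theorem cq_mem (hQ : QuaStmt) {g : E6} (hg : g ∈ X1.U) : cq g ∈ X1.U := by
  rw [mem_U1'] at hg ⊢
  intro i
  rw [hQ.2.2.2.2.2.2.2.2.2.2.2.2]
  exact hg i

theorem rot3_one : rot3 (fun _ => (1 : ℂ)) = ContinuousLinearMap.id ℂ C3 := by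
  ext1 c
  funext i
  rw [rot3_apply, one_mul]
  rfl

theorem cmp_act_real (hC : CptStmt) {k : ℕ} {a : E6 → Alt 6 k} (ha : X1.BasicOn X1.U a)
    {t : Fin 3 → ℝ} (ht : ∀ i, 0 < t i) {z : E6} (hz : z ∈ X1.U) :
    cmp a (X1.act (fun i => (t i : ℂ)) z) = cmp a z := by
  have h := (hC.1 k a ha).1 z hz (fun i => (t i : ℂ)) fun j => by
    exact_mod_cast (ht j).ne'
  rw [h]
  have h1 : (fun j => (starRingEnd ℂ) ((t j : ℝ) : ℂ) / ((t j : ℝ) : ℂ)) = fun _ => (1 : ℂ) := by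
    funext j
    rw [Complex.conj_ofReal, div_self]
    exact_mod_cast (ht j).ne'
  rw [h1, rot3_one]
  ext v
  rfl

/-- `⟨g^* a, b⟩ = ⟨a, (g^{-1})^* b⟩` -/
theorem pair_gs (hC : CptStmt) (hQ : QuaStmt) (hM : QumStmt) (hP : PrfStmt) (hI : InvStmt)
    (hG : GsfStmt) {k l : ℕ} (hkl : k + l = 6) {a : E6 → Alt 6 k} {b : E6 → Alt 6 l}
    (hac : ContinuousOn a X1.U) (hab : X1.BasicOn X1.U a) (hbc : ContinuousOn b X1.U)
    (hbb : X1.BasicOn X1.U b) {g : E6} (hg : g ∈ X1.U) :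
    X1.pair (gs g a) b = X1.pair a (gs (cq g) b) := by
  have hq := cq_mem hQ hg
  have g1 := (hG g hg).1 k a hac
  have g2 := (hG g hg).2.1 k a hab
  have g3 := (hG (cq g) hq).1 k _ g1
  have g4 := (hG (cq g) hq).2.1 k _ g2
  have g5 := (hG (cq g) hq).1 l b hbc
  have g6 := (hG (cq g) hq).2.1 l b hbb
  rw [← (hI k l hkl (gs g a) b g1 g2 hbc hbb).1 (cq g) hq,
    (hP k l hkl _ _ g3 g4 g5 g6).2.2, (hP k l hkl _ _ hac hab g5 g6).2.2]
  congr 1
  apply integral_congr_ae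
  filter_upwards [ae_U hM.2.2.2.2.2.1] with z hz
  have h1 : cmp (gs (cq g) (gs g a)) z = cmp a z := by
    rw [hC.2.2.2.2.1, hC.2.2.2.2.1, hQ.2.2.2.2.2.2.1]
    exact cmp_act_real hC hab (fun i => (mem_U1' g).mp hg i) hz
  unfold prw
  rw [h1]

theorem sym1 (hC : CptStmt) (hQ : QuaStmt) (hM : QumStmt) (hR : RhoStmt) (hP : PrfStmt)
    (hI : InvStmt) (hG : GsfStmt) (hA : AvfStmt) (hW : WdgStmt) {δ : Fin 3 → ℝ} (hδ : Ad δ)
    {k l : ℕ} (hkl : k + l = 6) (a : X1.Form k) (b : X1.Form l) :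
    X1.pair (Av δ a.1) b.1 = X1.pair a.1 (Av δ b.1) := by
  obtain ⟨hrc, hr0, hri, hZ, hrq, hrh, hrs, -⟩ := hR δ hδ
  obtain ⟨-, hAc, hAb, hint, -⟩ := hA δ hδ k a.1 a.2.1 a.2.2.1
  obtain ⟨-, hBc, hBb, hjnt, -⟩ := hA δ hδ l b.1 b.2.1 b.2.2.1
  have hU : ∀ {g w : E6}, g ∈ X1.U → w ∈ X1.U → qm g w ∈ X1.U := fun hg hw =>
    (hQ.2.1 _ _).mpr ⟨hg, hw⟩
  have h0 := hM.2.2.2.2.2.1
  obtain ⟨Ca, hCa0, hCa⟩ := cmp_bdd hC a.2.1 a.2.2.1
  obtain ⟨Cb, hCb0, hCb⟩ := cmp_bdd hC b.2.1 b.2.2.1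
  obtain ⟨K, hK0, hK⟩ := WW_bound hW k l
  set E : E6 → ℝ := fun z => Real.exp (-∑ i, nn z i) with hE
  have hEc : ContinuousOn E X1.U := by
    apply Continuous.continuousOn
    have : Continuous fun z : E6 => ∑ i, nn z i :=
      continuous_finsetSum _ fun i _ => continuous_nn i
    exact Real.continuous_exp.comp this.neg
  have hEi : Integrable E := hM.2.2.2.2.2.2
  -- the two functions of two variables, first variable `z`, second variable `g`
  have hc1 : ContinuousOn (fun p : E6 × E6 => WW (cmp a.1 (qm p.2 p.1)) (cmp b.1 p.1))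
      (X1.U ×ˢ X1.U) := by
    refine WW_contOn hW ?_ ?_
    · exact (cmp_cont hC a.2.1).comp
        (cont_qm.comp (continuous_snd.prodMk continuous_fst)).continuousOn
        fun p hp => hU hp.2 hp.1
    · exact (cmp_cont hC b.2.1).comp continuousOn_fst fun p hp => hp.1
  have hc2 : ContinuousOn (fun p : E6 × E6 => WW (cmp a.1 p.1) (cmp b.1 (qm p.2 p.1)))
      (X1.U ×ˢ X1.U) := by
    refine WW_contOn hW ?_ ?_
    · exact (cmp_cont hC a.2.1).comp continuousOn_fst fun p hp => hp.1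
    · exact (cmp_cont hC b.2.1).comp
        (cont_qm.comp (continuous_snd.prodMk continuous_fst)).continuousOn
        fun p hp => hU hp.2 hp.1
  have hbd : ∀ (x : Alt 3 k) (y : Alt 3 l), ‖x‖ ≤ Ca → ‖y‖ ≤ Cb → ‖WW x y‖ ≤ K * Ca * Cb := by
    intro x y hx hy
    rw [Real.norm_eq_abs]
    refine (hK x y).trans ?_
    gcongr
  have hI1 := int2 h0 hEc hrc hEi hri hc1 (C := K * Ca * Cb) fun p hp =>
    hbd _ _ (hCa _ (hU hp.2 hp.1)) (hCb _ hp.1)
  have hI2 := int2 h0 hEc hrc hEi hri hc2 (C := K * Ca * Cb) fun p hp =>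
    hbd _ _ (hCa _ hp.1) (hCb _ (hU hp.2 hp.1))
  -- both sides
  have hL : X1.pair (Av δ a.1) b.1 = (Real.pi ^ 3)⁻¹ * ((Zc δ)⁻¹ *
      ∫ z, ∫ g, (E z * rho δ g) • WW (cmp a.1 (qm g z)) (cmp b.1 z)) := by
    rw [(hP k l hkl _ _ hAc hAb b.2.1 b.2.2.1).2.2]
    congr 1
    rw [← integral_const_mul]
    apply integral_congr_ae
    filter_upwards [ae_U h0] with z hz
    rw [prw_eq]
    have h1 : WW (cmp (Av δ a.1) z) (cmp b.1 z) = (Zc δ)⁻¹ *
        ∫ g, rho δ g * WW (cmp a.1 (qm g z)) (cmp b.1 z) := by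
      have h2 := (WL hW (cmp b.1 z)).integral_comp_comm (hint z hz).1
      rw [← WL_apply hW, (hint z hz).2, map_smul, ← h2, smul_eq_mul]
      congr 1
      apply integral_congr_ae
      refine ae_of_all _ fun g => ?_
      show WL hW (cmp b.1 z) (rho δ g • cmp a.1 (qm g z)) = _
      rw [map_smul, smul_eq_mul, WL_apply]
    rw [h1, ← mul_assoc, mul_comm (E z), mul_assoc, ← integral_const_mul]
    congr 1
    apply integral_congr_ae
    refine ae_of_all _ fun g => ?_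
    show E z * (rho δ g * _) = (E z * rho δ g) * _
    ring
  have hRt : X1.pair a.1 (Av δ b.1) = (Real.pi ^ 3)⁻¹ * ((Zc δ)⁻¹ *
      ∫ z, ∫ g, (E z * rho δ g) • WW (cmp a.1 z) (cmp b.1 (qm g z))) := by
    rw [(hP k l hkl _ _ a.2.1 a.2.2.1 hBc hBb).2.2]
    congr 1
    rw [← integral_const_mul]
    apply integral_congr_ae
    filter_upwards [ae_U h0] with z hz
    rw [prw_eq]
    have h1 : WW (cmp a.1 z) (cmp (Av δ b.1) z) = (Zc δ)⁻¹ *
        ∫ g, rho δ g * WW (cmp a.1 z) (cmp b.1 (qm g z)) := by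
      have h2 := (WR hW (cmp a.1 z)).integral_comp_comm (hjnt z hz).1
      rw [← WR_apply hW, (hjnt z hz).2, map_smul, ← h2, smul_eq_mul]
      congr 1
      apply integral_congr_ae
      refine ae_of_all _ fun g => ?_
      show WR hW (cmp a.1 z) (rho δ g • cmp b.1 (qm g z)) = _
      rw [map_smul, smul_eq_mul, WR_apply]
    rw [h1, ← mul_assoc, mul_comm (E z), mul_assoc, ← integral_const_mul]
    congr 1
    apply integral_congr_ae
    refine ae_of_all _ fun g => ?_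
    show E z * (rho δ g * _) = (E z * rho δ g) * _
    ring
  rw [hL, hRt]
  congr 2
  have s1 : (∫ z, ∫ g, (E z * rho δ g) • WW (cmp a.1 (qm g z)) (cmp b.1 z)) =
      ∫ g, ∫ z, (E z * rho δ g) • WW (cmp a.1 (qm g z)) (cmp b.1 z) :=
    integral_integral_swap hI1
  have s2 : (∫ z, ∫ g, (E z * rho δ g) • WW (cmp a.1 z) (cmp b.1 (qm g z))) =
      ∫ g, ∫ z, (E z * rho δ g) • WW (cmp a.1 z) (cmp b.1 (qm g z)) :=
    integral_integral_swap hI2
  rw [s1, s2]
  -- substitution `g ↦ cq g`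
  have hmp := hM.2.2.1
  have hJ : AEStronglyMeasurable (fun g => ∫ z, (E z * rho δ g) • WW (cmp a.1 z)
      (cmp b.1 (qm g z))) := hI2.integral_prod_right.aestronglyMeasurable
  have h2 := integral_map hmp.aemeasurable (f := fun g => ∫ z, (E z * rho δ g) •
    WW (cmp a.1 z) (cmp b.1 (qm g z))) (by rw [hmp.map_eq]; exact hJ)
  rw [hmp.map_eq] at h2
  rw [h2]
  apply integral_congr_ae
  refine ae_of_all _ fun g => ?_
  show ∫ z, (E z * rho δ g) • WW (cmp a.1 (qm g z)) (cmp b.1 z) =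
    ∫ z, (E z * rho δ (cq g)) • WW (cmp a.1 z) (cmp b.1 (qm (cq g) z))
  rw [hrq g]
  by_cases hg : rho δ g = 0
  · simp [hg]
  have hgU := (hrs g hg).1
  have hq := cq_mem hQ hgU
  have e1 : ∫ z, (E z * rho δ g) • WW (cmp a.1 (qm g z)) (cmp b.1 z) =
      rho δ g * (Real.pi ^ 3 * X1.pair (gs g a.1) b.1) := by
    rw [(hP k l hkl _ _ ((hG g hgU).1 k a.1 a.2.1) ((hG g hgU).2.1 k a.1 a.2.2.1) b.2.1
      b.2.2.1).2.2, mul_inv_cancel_left₀ (by positivity), ← integral_const_mul]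
    apply integral_congr_ae
    refine ae_of_all _ fun z => ?_
    show (E z * rho δ g) * WW (cmp a.1 (qm g z)) (cmp b.1 z) =
      rho δ g * (E z * prw (gs g a.1) b.1 z)
    rw [prw_eq, hC.2.2.2.2.1]
    ring
  have e2 : ∫ z, (E z * rho δ g) • WW (cmp a.1 z) (cmp b.1 (qm (cq g) z)) =
      rho δ g * (Real.pi ^ 3 * X1.pair a.1 (gs (cq g) b.1)) := by
    rw [(hP k l hkl _ _ a.2.1 a.2.2.1 ((hG (cq g) hq).1 l b.1 b.2.1)
      ((hG (cq g) hq).2.1 l b.1 b.2.2.1)).2.2, mul_inv_cancel_left₀ (by positivity),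
      ← integral_const_mul]
    apply integral_congr_ae
    refine ae_of_all _ fun z => ?_
    show (E z * rho δ g) * WW (cmp a.1 z) (cmp b.1 (qm (cq g) z)) =
      rho δ g * (E z * prw a.1 (gs (cq g) b.1) z)
    rw [prw_eq, hC.2.2.2.2.1]
    ring
  rw [e1, e2, pair_gs hC hQ hM hP hI hG hkl a.2.1 a.2.2.1 b.2.1 b.2.2.1 hgU]

theorem sym (hC : CptStmt) (hQ : QuaStmt) (hM : QumStmt) (hR : RhoStmt) (hP : PrfStmt)
    (hI : InvStmt) (hG : GsfStmt) (hA : AvfStmt) (hW : WdgStmt) : SymStmt := by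
  intro δ ε hδ hε
  refine ⟨fun k l hkl a b => sym1 hC hQ hM hR hP hI hG hA hW hδ hkl a b, fun k a z hz => ?_⟩
  obtain ⟨-, hAc, hAb, -, -⟩ := hA δ hδ k a.1 a.2.1 a.2.2.1
  obtain ⟨-, hBc, hBb, -, -⟩ := hA ε hε k a.1 a.2.1 a.2.2.1
  have b1 := (hA δ hδ k (Av ε a.1) hBc hBb).2.2.1
  have b2 := (hA ε hε k (Av δ a.1) hAc hAb).2.2.1
  rw [(hC.1 k _ b1).2 z hz, (hC.1 k _ b2).2 z hz, av_comm hC hQ hM hR hA hδ hε k a hz]

end Pool.Agent.SIQ.H98
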