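import Pool.Agent.Helper98_SIQ.Com

/-!
# SIQ, module UNI: the averages converge uniformly
-/

set_option autoImplicit false

open MeasureTheory Filter Topology

namespace Pool.Agent.SIQ.H98

open Pool.Agent.SIU Pool.Agent.SIQ

theorem sq_sub_aux (a b : ℂ) : ‖a - b‖ ^ 2 = ‖a‖ ^ 2 + ‖b‖ ^ 2 - 2 * (a * (starRingEnd ℂ) b).re := by
  rw [← Complex.normSq_eq_norm_sq, ← Complex.normSq_eq_norm_sq, ← Complex.normSq_eq_norm_sq,
    Complex.normSq_apply, Complex.normSq_apply, Complex.normSq_apply]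
  simp
  ring

theorem nn_sub (a w : E6) (i : Fin 3) : nn (a - w) i = nn a i + nn w i - 2 * rip a w i := by
  unfold nn rip
  rw [Pi.sub_apply, Pi.sub_apply, sq_sub_aux, sq_sub_aux, Complex.add_re]
  ring

theorem rip_act (t : Fin 3 → ℝ) (z w : E6) (i : Fin 3) :
    rip (X1.act (fun i => (t i : ℂ)) z) w i = t i * rip z w i := by
  unfold rip
  rw [act1_lo, act1_hi, ← Complex.re_ofReal_mul]
  congr 1
  ring

theorem nz_near (hQ : QuaStmt) {w g : E6} (hw : w ∈ M1) (hg : g ∈ X1.U) (δ : Fin 3 → ℝ)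
    (h : ∀ i, (1 - δ i) * √(nn g i) < (g (lo i)).re) (i : Fin 3) :
    nn (nz (qm g w) - w) i ≤ 2 * δ i := by
  have hq : qm g w ∈ X1.U := (hQ.2.1 g w).mpr ⟨hg, M1_subset hw⟩
  have h1 : nn (nz (qm g w)) i = 1 := nz_mem hq i
  have h2 : nn w i = 1 := hw i
  have h3 : nn (qm g w) i = nn g i := by rw [hQ.1, h2, mul_one]
  have hp : 0 < √(nn g i) := Real.sqrt_pos.mpr ((mem_U1' g).mp hg i)
  have h4 : rip (nz (qm g w)) w i = (√(nn g i))⁻¹ * (g (lo i)).re := by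
    unfold nz
    rw [rip_act, h3, hQ.2.2.2.2.2.2.2.2.2.2.2.1, h2, mul_one]
  rw [nn_sub, h1, h2, h4]
  have h5 : 1 - δ i ≤ (√(nn g i))⁻¹ * (g (lo i)).re := by
    rw [inv_mul_eq_div, le_div_iff₀ hp]
    exact (h i).le
  linarith

theorem dist_lt_of_nn {a w : E6} {η : ℝ} (hη : 0 < η) (h : ∀ i, nn (a - w) i < η ^ 2) :
    dist a w < η := by
  rw [dist_eq_norm, pi_norm_lt_iff hη]
  intro m
  have key : ∀ x : ℂ, ‖x‖ ^ 2 < η ^ 2 → ‖x‖ < η := fun x hx =>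
    lt_of_pow_lt_pow_left₀ 2 hη.le hx
  obtain ⟨i, rfl | rfl⟩ := blocks m
  · apply key
    have := h i
    unfold nn at this
    have h1 := sq_nonneg ‖(a - w) (hi i)‖
    linarith
  · apply key
    have := h i
    unfold nn at this
    have h1 := sq_nonneg ‖(a - w) (lo i)‖
    linarith

theorem cmp_near (hC : CptStmt) (hQ : QuaStmt) (hR : RhoStmt) (hA : AvfStmt) (k : ℕ)
    (β : X1.Form k) (δ : Fin 3 → ℝ) (hδ : Ad δ) (η ε' : ℝ) (hη : 0 < η)
    (hd : ∀ i, 2 * δ i < η ^ 2)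
    (hu : ∀ x ∈ M1, ∀ y ∈ M1, dist x y < η → dist (cmp β.1 x) (cmp β.1 y) < ε') (w : E6)
    (hw : w ∈ M1) : ‖cmp (Av δ β.1) w - cmp β.1 w‖ ≤ ε' := by
  obtain ⟨-, hr0, hri, hZ, -, -, hrs, -⟩ := hR δ hδ
  obtain ⟨-, -, -, hint, -⟩ := hA δ hδ k β.1 β.2.1 β.2.2.1
  have hwU := M1_subset hw
  obtain ⟨hi, heq⟩ := hint w hwU
  have hZ' : ∫ g, rho δ g = Zc δ := rfl
  have h1 : cmp β.1 w = (Zc δ)⁻¹ • ∫ g, rho δ g • cmp β.1 w := by
    rw [integral_smul_const, hZ', smul_smul, inv_mul_cancel₀ hZ.ne', one_smul]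
  have h2 : cmp (Av δ β.1) w - cmp β.1 w =
      (Zc δ)⁻¹ • ∫ g, (rho δ g • cmp β.1 (qm g w) - rho δ g • cmp β.1 w) := by
    rw [integral_sub hi (hri.smul_const _), smul_sub, ← h1, heq]
  rw [h2, norm_smul, Real.norm_of_nonneg (inv_nonneg.mpr hZ.le), inv_mul_le_iff₀ hZ]
  have h3 : ‖∫ g, (rho δ g • cmp β.1 (qm g w) - rho δ g • cmp β.1 w)‖ ≤
      ∫ g, rho δ g * ε' := by
    apply norm_integral_le_of_norm_le (hri.mul_const _)
    refine ae_of_all _ fun g => ?_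
    have e : rho δ g • cmp β.1 (qm g w) - rho δ g • cmp β.1 w =
        rho δ g • (cmp β.1 (qm g w) - cmp β.1 w) := (smul_sub _ _ _).symm
    rw [e, norm_smul, Real.norm_of_nonneg (hr0 g).1]
    by_cases hg : rho δ g = 0
    · rw [hg, zero_mul, zero_mul]
    · apply mul_le_mul_of_nonneg_left _ (hr0 g).1
      obtain ⟨hgU, hgr⟩ := hrs g hg
      have hq : qm g w ∈ X1.U := (hQ.2.1 g w).mpr ⟨hgU, hwU⟩
      rw [hC.2.2.2.2.2.2 k β.1 β.2.2.1 _ hq, ← dist_eq_norm]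
      apply (hu _ (nz_mem hq) _ hw _).le
      exact dist_lt_of_nn hη fun i => lt_of_le_of_lt (nz_near hQ hw hgU δ hgr i) (hd i)
  rw [integral_mul_const, hZ'] at h3
  exact h3

theorem uni (hC : CptStmt) (hQ : QuaStmt) (hR : RhoStmt) (hA : AvfStmt) : UniStmt := by
  intro k β δ hAd hδ Q hQc hQU ε hε
  obtain ⟨C, hC0, hCC⟩ := hC.2.2.2.2.2.1 Q hQc hQU k
  obtain ⟨η, hη, hu⟩ := Metric.uniformContinuousOn_iff.mp
    (isCompact_M1.uniformContinuousOn_of_continuous ((cmp_cont hC β.2.1).mono M1_subset))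
    (ε / (C + 1)) (by positivity)
  have hev : ∀ i, ∀ᶠ n in atTop, 2 * δ n i < η ^ 2 := by
    intro i
    have := (hδ i).const_mul 2
    rw [mul_zero] at this
    exact this.eventually_lt_const (by positivity)
  filter_upwards [eventually_all.mpr hev] with n hn z hz
  obtain ⟨-, hAc, hAb, -, -⟩ := hA (δ n) (hAd n) k β.1 β.2.1 β.2.2.1
  have h1 := (hCC (fun w => Av (δ n) β.1 w - β.1 w) (basic_sub hAb β.2.2.1) z hz).1
  have h2 := cmp_near hC hQ hR hA k β (δ n) (hAd n) η (ε / (C + 1)) hη hn hu (nz z)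
    (nz_mem (hQU hz))
  rw [cmp_sub] at h1
  calc ‖Av (δ n) β.1 z - β.1 z‖ ≤ C * ‖cmp (Av (δ n) β.1) (nz z) - cmp β.1 (nz z)‖ := h1
    _ ≤ C * (ε / (C + 1)) := mul_le_mul_of_nonneg_left h2 hC0
    _ ≤ (C + 1) * (ε / (C + 1)) := mul_le_mul_of_nonneg_right (by linarith) (by positivity)
    _ = ε := by field_simp

end Pool.Agent.SIQ.H98
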