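import Pool.Agent.Helper15_SIQ.Stmts

/-!
# SIQ, common lemmas for UNI and SYM
-/

set_option autoImplicit false

open MeasureTheory Filter Topology

namespace Pool.Agent.SIQ.H98

open Pool.Agent.SIU Pool.Agent.SIQ

theorem cmp_cont (hC : CptStmt) {k : ℕ} {β : E6 → Alt 6 k} (hβ : ContinuousOn β X1.U) :
    ContinuousOn (cmp β) X1.U := by
  have h := hC.2.2.1 k 0 β
  exact contDiffOn_zero.mp (h (contDiffOn_zero.mpr hβ))

theorem cmp_bdd (hC : CptStmt) {k : ℕ} {β : E6 → Alt 6 k} (hβ : ContinuousOn β X1.U)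
    (hb : X1.BasicOn X1.U β) : ∃ C : ℝ, 0 ≤ C ∧ ∀ z ∈ X1.U, ‖cmp β z‖ ≤ C := by
  obtain ⟨C, hCC⟩ := isCompact_M1.exists_bound_of_continuousOn ((cmp_cont hC hβ).mono M1_subset)
  refine ⟨max C 0, le_max_right _ _, fun z hz => ?_⟩
  rw [hC.2.2.2.2.2.2 k β hb z hz]
  exact (hCC _ (nz_mem hz)).trans (le_max_left _ _)

theorem cmp_sub {k : ℕ} (a b : E6 → Alt 6 k) (z : E6) :
    cmp (fun w => a w - b w) z = cmp a z - cmp b z := rfl

theorem basic_sub {k : ℕ} {a b : E6 → Alt 6 k} (ha : X1.BasicOn X1.U a)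
    (hb : X1.BasicOn X1.U b) : X1.BasicOn X1.U (fun w => a w - b w) := by
  refine ⟨fun z hz c hc v => ?_, fun z hz v i hv => ?_⟩
  · show a _ _ - b _ _ = a _ _ - b _ _
    rw [ha.1 z hz c hc v, hb.1 z hz c hc v]
  · show a _ _ - b _ _ = 0
    rw [ha.2 z hz v i hv, hb.2 z hz v i hv, sub_zero]

end Pool.Agent.SIQ.H98
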